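import Pool.Agent.N879.GD.Stm

/-!
# Project GZ, package LEW: the Mellin transform with a smooth compactly supported weight
-/

set_option autoImplicit false

namespace Pool.Agent.U934.GZ

open Complex Filter Topology MeasureTheory Set FourierTransform
open Pool.Agent.N879.GD
open Pool.Agent.Y969.GP (ff)

/-- Fourier inversion -/
theorem inv1 (g : ℝ → ℂ) (hg : ContDiff ℝ (⊤ : ℕ∞) g) (hc : HasCompactSupport g) :
    ∃ k : ℝ → ℂ, Integrable k ∧ Continuous k ∧
      ∀ s : ℝ, g s = ∫ ξ : ℝ, k ξ * cexp (I * ((2 * Real.pi * ξ * s : ℝ) : ℂ)) := by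
  let G : SchwartzMap ℝ ℂ := hc.toSchwartzMap hg
  have h0 : ((𝓕 G : SchwartzMap ℝ ℂ) : ℝ → ℂ) = 𝓕 g := SchwartzMap.fourier_coe G
  have h1 : Integrable (𝓕 g) := by
    rw [← h0]
    exact (𝓕 G : SchwartzMap ℝ ℂ).integrable (μ := volume)
  have h1' : Continuous (𝓕 g) := by
    rw [← h0]
    exact (𝓕 G : SchwartzMap ℝ ℂ).continuous
  have hgi : Integrable g := G.integrable (μ := volume)
  refine ⟨𝓕 g, h1, h1', fun s => ?_⟩
  have h2 := hg.continuous.fourierInv_fourier_eq hgi h1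
  conv_lhs => rw [← congrFun h2 s]
  rw [Real.fourierInv_eq']
  refine integral_congr_ae (Filter.Eventually.of_forall fun ξ => ?_)
  simp only [smul_eq_mul]
  rw [mul_comm]
  congr 1
  rw [mul_comm I]
  congr 3
  simp only [RCLike.inner_apply, conj_trivial]
  ring

/-- Fubini -/
theorem fub {f : ℝ → ℝ} {k : ℝ → ℂ} (hf : IntegrableOn f (Ioi 0)) (hk : Integrable k)
    (τ L : ℝ) {B : ℝ}
    (hB : ∀ τ : ℝ, ‖∫ u in Ioi (0 : ℝ), (f u : ℂ) * cexp (-(I * ((τ * Real.log u : ℝ) : ℂ)))‖ ≤ B) :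
    ‖∫ u in Ioi (0 : ℝ), ∫ ξ : ℝ, (f u : ℂ) * cexp (-(I * ((τ * Real.log u : ℝ) : ℂ))) *
      (k ξ * cexp (I * ((2 * Real.pi * ξ * (Real.log u - L) : ℝ) : ℂ)))‖ ≤ (∫ ξ, ‖k ξ‖) * B := by
  have hfc : Integrable (fun u : ℝ => (f u : ℂ)) (volume.restrict (Ioi (0 : ℝ))) := hf.ofReal
  have hprod := hfc.mul_prod hk
  have hmeas : Measurable (fun z : ℝ × ℝ => cexp (-(I * ((τ * Real.log z.1 : ℝ) : ℂ))) *
      cexp (I * ((2 * Real.pi * z.2 * (Real.log z.1 - L) : ℝ) : ℂ))) := by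
    fun_prop
  have hint : Integrable (Function.uncurry fun (u ξ : ℝ) =>
      (f u : ℂ) * cexp (-(I * ((τ * Real.log u : ℝ) : ℂ))) *
      (k ξ * cexp (I * ((2 * Real.pi * ξ * (Real.log u - L) : ℝ) : ℂ))))
      ((volume.restrict (Ioi (0 : ℝ))).prod volume) := by
    have h1 := hprod.bdd_mul (c := 1) hmeas.aestronglyMeasurable
      (Filter.Eventually.of_forall fun z => by
        rw [norm_mul]
        have e1 : ‖cexp (-(I * ((τ * Real.log z.1 : ℝ) : ℂ)))‖ = 1 := by
          rw [Complex.norm_exp]; simp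
        have e2 : ‖cexp (I * ((2 * Real.pi * z.2 * (Real.log z.1 - L) : ℝ) : ℂ))‖ = 1 := by
          rw [Complex.norm_exp]; simp
        rw [e1, e2]; norm_num)
    refine h1.congr (Filter.Eventually.of_forall fun z => ?_)
    simp only [Function.uncurry]
    ring
  rw [integral_integral_swap hint]
  have hk' : Integrable (fun ξ => ‖k ξ‖ * B) := hk.norm.mul_const B
  refine (norm_integral_le_of_norm_le hk' (Filter.Eventually.of_forall fun ξ => ?_)).trans
    (le_of_eq (integral_mul_const _ _))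
  have e : (∫ u in Ioi (0 : ℝ), (f u : ℂ) * cexp (-(I * ((τ * Real.log u : ℝ) : ℂ))) *
      (k ξ * cexp (I * ((2 * Real.pi * ξ * (Real.log u - L) : ℝ) : ℂ)))) =
      (k ξ * cexp (-(I * ((2 * Real.pi * ξ * L : ℝ) : ℂ)))) *
      ∫ u in Ioi (0 : ℝ), (f u : ℂ) *
        cexp (-(I * (((τ - 2 * Real.pi * ξ) * Real.log u : ℝ) : ℂ))) := by
    rw [← integral_const_mul]
    refine integral_congr_ae (Filter.Eventually.of_forall fun u => ?_)
    simp only
    have : cexp (-(I * ((τ * Real.log u : ℝ) : ℂ))) *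
        cexp (I * ((2 * Real.pi * ξ * (Real.log u - L) : ℝ) : ℂ)) =
        cexp (-(I * ((2 * Real.pi * ξ * L : ℝ) : ℂ))) *
        cexp (-(I * (((τ - 2 * Real.pi * ξ) * Real.log u : ℝ) : ℂ))) := by
      rw [← Complex.exp_add, ← Complex.exp_add]
      congr 1
      push_cast
      ring
    calc _ = (f u : ℂ) * k ξ * (cexp (-(I * ((τ * Real.log u : ℝ) : ℂ))) *
        cexp (I * ((2 * Real.pi * ξ * (Real.log u - L) : ℝ) : ℂ))) := by ring
      _ = _ := by rw [this]; ring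
  rw [e, norm_mul, norm_mul]
  have e1 : ‖cexp (-(I * ((2 * Real.pi * ξ * L : ℝ) : ℂ)))‖ = 1 := by
    rw [Complex.norm_exp]; simp
  rw [e1, mul_one]
  exact mul_le_mul_of_nonneg_left (hB _) (norm_nonneg _)

theorem t_LEW (h : S_LEM) : S_LEW := by
  obtain ⟨a, δ, ha, hδ0, hδ1, C, T₀, hC, hT₀, h⟩ := h
  refine ⟨δ, hδ0, hδ1, ?_⟩
  intro w hw hc hs
  set g : ℝ → ℂ := fun s =>
    ((w (Real.exp s) * Real.exp (-(a * s)) * Real.exp (Real.exp s) : ℝ) : ℂ) with hg
  have hgs : ContDiff ℝ (⊤ : ℕ∞) g := by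
    have h1 : ContDiff ℝ (⊤ : ℕ∞) (fun s : ℝ =>
        w (Real.exp s) * Real.exp (-(a * s)) * Real.exp (Real.exp s)) := by
      have h2 : ContDiff ℝ (⊤ : ℕ∞) (fun s : ℝ => w (Real.exp s)) := hw.comp Real.contDiff_exp
      refine (h2.mul ?_).mul (Real.contDiff_exp.comp Real.contDiff_exp)
      exact Real.contDiff_exp.comp ((contDiff_const.mul contDiff_id).neg)
    exact Complex.ofRealCLM.contDiff.comp h1
  have hgc : HasCompactSupport g := by
    have hK : IsCompact (Real.log '' tsupport w) := by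
      refine hc.isCompact.image_of_continuousOn ?_
      intro x hx
      exact (Real.continuousAt_log (ne_of_gt (hs hx))).continuousWithinAt
    refine HasCompactSupport.intro hK ?_
    intro s hsn
    have h1 : Real.exp s ∉ tsupport w := fun h2 => hsn ⟨_, h2, Real.log_exp s⟩
    have h2 : w (Real.exp s) = 0 := image_eq_zero_of_notMem_tsupport h1
    simp [hg, h2]
  obtain ⟨k, hk, hkc, hinv⟩ := inv1 g hgs hgc
  refine ⟨((∫ ξ, ‖k ξ‖) + 1) * C, T₀, ?_, hT₀, ?_⟩
  · have : 0 ≤ ∫ ξ, ‖k ξ‖ := integral_nonneg fun _ => norm_nonneg _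
    positivity
  intro T τ hT
  have hT0 : 0 < T := by linarith
  obtain ⟨hint, hB⟩ := h T hT
  have hf := fub hint hk τ (Real.log T) hB
  have e : (∫ u in Ioi (0 : ℝ), ((w (u / T) * (ff u - D0 u) / u : ℝ) : ℂ) *
      cexp (-(I * ((τ * Real.log u : ℝ) : ℂ)))) =
      ∫ u in Ioi (0 : ℝ), ∫ ξ : ℝ, ((W a T u * (ff u - D0 u) : ℝ) : ℂ) *
        cexp (-(I * ((τ * Real.log u : ℝ) : ℂ))) *
      (k ξ * cexp (I * ((2 * Real.pi * ξ * (Real.log u - Real.log T) : ℝ) : ℂ))) := by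
    refine setIntegral_congr_fun measurableSet_Ioi fun u hu => ?_
    have hu0 : 0 < u := hu
    rw [integral_const_mul, ← hinv]
    have hexp : Real.exp (Real.log u - Real.log T) = u / T := by
      rw [Real.exp_sub, Real.exp_log hu0, Real.exp_log hT0]
    have hpow : (u / T) ^ a * Real.exp (-(a * (Real.log u - Real.log T))) = 1 := by
      have h1 : 0 < u / T := by positivity
      rw [Real.rpow_def_of_pos h1, ← Real.exp_add, Real.log_div hu0.ne' hT0.ne']
      rw [show (Real.log u - Real.log T) * a + -(a * (Real.log u - Real.log T)) = 0 by ring,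
        Real.exp_zero]
    have hr : w (u / T) * (ff u - D0 u) / u = W a T u * (ff u - D0 u) *
        (w (u / T) * Real.exp (-(a * (Real.log u - Real.log T))) * Real.exp (u / T)) := by
      unfold W
      have h2 : Real.exp (-(u / T)) * Real.exp (u / T) = 1 := by
        rw [← Real.exp_add]; simp
      calc w (u / T) * (ff u - D0 u) / u
          = ((u / T) ^ a * Real.exp (-(a * (Real.log u - Real.log T)))) *
            (Real.exp (-(u / T)) * Real.exp (u / T)) * (w (u / T) * (ff u - D0 u) / u) := by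
            rw [hpow, h2]; ring
        _ = _ := by ring
    rw [hg]
    simp only
    rw [hexp, hr]
    push_cast
    ring
  rw [e]
  refine hf.trans ?_
  have h3 : 0 < C * T ^ (-δ) := by positivity
  have h4 : (∫ ξ, ‖k ξ‖) * (C * T ^ (-δ)) ≤ ((∫ ξ, ‖k ξ‖) + 1) * (C * T ^ (-δ)) :=
    mul_le_mul_of_nonneg_right (by linarith) h3.le
  calc _ ≤ ((∫ ξ, ‖k ξ‖) + 1) * (C * T ^ (-δ)) := h4
    _ = _ := by ring

end Pool.Agent.U934.GZ
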